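import Pool.Agent.W117.GS.Stm

/-! Project GS (helper117), part SP: the supersolution inequality. -/

set_option autoImplicit false

open Filter Topology Set

noncomputable section

namespace Pool.Agent.W714.GS.SP

open Pool.Agent.W117.GS

theorem sp_nonneg (p z : ℝ × ℝ) : 0 ≤ sp p z := by unfold sp; positivity

theorem sp_pos {p q : ℝ × ℝ} (h : p ≠ q) : 0 < sp p q := by
  by_contra hc
  unfold sp at hc
  push Not at hc
  have h1 : (q.1 - p.1) ^ 2 = 0 := by nlinarith [sq_nonneg (q.1 - p.1), sq_nonneg (q.2 - p.2)]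
  have h2 : (q.2 - p.2) ^ 2 = 0 := by nlinarith [sq_nonneg (q.1 - p.1), sq_nonneg (q.2 - p.2)]
  have h3 := (pow_eq_zero_iff two_ne_zero).1 h1
  have h4 := (pow_eq_zero_iff two_ne_zero).1 h2
  exact h (Prod.ext (by linarith) (by linarith))

theorem sp_tri (p q z : ℝ × ℝ) : sp p q ≤ 2 * sp p z + 2 * sp q z := by
  unfold sp
  nlinarith [sq_nonneg ((z.1 - p.1) + (z.1 - q.1)), sq_nonneg ((z.2 - p.2) + (z.2 - q.2))]

theorem exp_VV (S : Finset (ℝ × ℝ)) (n : ℝ × ℝ → ℕ) (μ : ℝ) (hμ : 0 < μ) (z : ℝ × ℝ) :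
    Real.exp (VV S n μ z) = 2 * ∏ p ∈ S, ((μ + sp p z) ^ n p)⁻¹ := by
  unfold VV
  rw [Real.exp_sub, Real.exp_log (by norm_num), Real.exp_sum, div_eq_mul_inv,
    ← Finset.prod_inv_distrib]
  congr 1
  refine Finset.prod_congr rfl fun p _ => ?_
  have h : 0 < μ + sp p z := by have := sp_nonneg p z; linarith
  rw [mul_comm, ← Real.rpow_def_of_pos h, Real.rpow_natCast]

theorem exp_aVV (a : ℝ) (S : Finset (ℝ × ℝ)) (n : ℝ × ℝ → ℕ) (μ : ℝ) (hμ : 0 < μ) (z : ℝ × ℝ) :
    Real.exp (a * VV S n μ z) = 2 ^ a * ∏ p ∈ S, (μ + sp p z) ^ (-(a * n p)) := by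
  unfold VV
  have h0 : a * (Real.log 2 - ∑ p ∈ S, (n p : ℝ) * Real.log (μ + sp p z)) =
      Real.log 2 * a + ∑ p ∈ S, Real.log (μ + sp p z) * (-(a * n p)) := by
    rw [mul_sub, Finset.mul_sum, sub_eq_add_neg, ← Finset.sum_neg_distrib]
    congr 1
    · ring
    · exact Finset.sum_congr rfl fun p _ => by ring
  rw [h0, Real.exp_add, Real.exp_sum, ← Real.rpow_def_of_pos (by norm_num)]
  congr 1
  refine Finset.prod_congr rfl fun p _ => ?_
  have h : 0 < μ + sp p z := by have := sp_nonneg p z; linarith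
  rw [← Real.rpow_def_of_pos h]

theorem gV_eq (S : Finset (ℝ × ℝ)) (n : ℝ × ℝ → ℕ) (μ : ℝ) (hμ : 0 < μ) (z : ℝ × ℝ) :
    gg S n z * Real.exp (VV S n μ z) = 2 * ∏ p ∈ S, (sp p z / (μ + sp p z)) ^ n p := by
  rw [exp_VV S n μ hμ z, gg, mul_left_comm, ← Finset.prod_mul_distrib]
  congr 1
  refine Finset.prod_congr rfl fun p _ => ?_
  rw [div_pow, div_eq_mul_inv]

theorem exists_small (S : Finset (ℝ × ℝ)) (n : ℝ × ℝ → ℕ) (N : ℕ) (hN : N = ∑ p ∈ S, n p)
    (hN1 : 1 ≤ N) (μ : ℝ) (hμ : 0 < μ)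
    (z : ℝ × ℝ) (h : gg S n z * Real.exp (VV S n μ z) < 1) :
    ∃ p ∈ S, μ + sp p z ≤ 2 * (N : ℝ) * μ := by
  by_contra hc
  push Not at hc
  have hNr : (1 : ℝ) ≤ N := by exact_mod_cast hN1
  have h2N : (0 : ℝ) < 2 * N := by linarith
  have hle1 : 1 / (2 * (N : ℝ)) ≤ 1 := by
    rw [div_le_one h2N]; linarith
  have ht : ∀ p ∈ S, 1 - 1 / (2 * (N : ℝ)) ≤ sp p z / (μ + sp p z) := by
    intro p hp
    have hpos : 0 < μ + sp p z := by have := sp_nonneg p z; linarith
    have h1 : sp p z / (μ + sp p z) = 1 - μ / (μ + sp p z) := by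
      field_simp
      ring
    rw [h1]
    have h2 : μ / (μ + sp p z) ≤ 1 / (2 * (N : ℝ)) := by
      rw [div_le_div_iff₀ hpos h2N]
      have := hc p hp
      linarith
    linarith
  have h3 : (1 - 1 / (2 * (N : ℝ))) ^ N ≤ ∏ p ∈ S, (sp p z / (μ + sp p z)) ^ n p := by
    rw [hN, ← Finset.prod_pow_eq_pow_sum]
    apply Finset.prod_le_prod
    · intro p _
      apply pow_nonneg
      rw [← hN]
      linarith
    · intro p hp
      apply pow_le_pow_left₀
      · rw [← hN]
        linarith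
      · rw [← hN]
        exact ht p hp
  have h4 : 1 / 2 ≤ (1 - 1 / (2 * (N : ℝ))) ^ N := by
    have h5 := one_add_mul_le_pow (a := -(1 / (2 * (N : ℝ)))) (by linarith) N
    have h6 : 1 + (N : ℝ) * -(1 / (2 * (N : ℝ))) = 1 / 2 := by
      field_simp
      ring
    rw [h6] at h5
    rw [sub_eq_add_neg]
    exact h5
  rw [gV_eq S n μ hμ z] at h
  linarith

theorem exists_sep (S : Finset (ℝ × ℝ)) :
    ∃ d : ℝ, 0 < d ∧ ∀ p ∈ S, ∀ q ∈ S, p ≠ q → d ≤ sp p q := by
  have h : ∀ᶠ d in 𝓝[>] (0 : ℝ), ∀ p ∈ S, ∀ q ∈ S, p ≠ q → d ≤ sp p q := by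
    rw [Finset.eventually_all]
    intro p _
    rw [Finset.eventually_all]
    intro q _
    by_cases hpq : p = q
    · exact Eventually.of_forall fun d h => absurd hpq h
    · filter_upwards [Ioc_mem_nhdsGT (sp_pos hpq)] with d hd _
      exact hd.2
  obtain ⟨d, hd, hd0⟩ := (h.and self_mem_nhdsWithin).exists
  exact ⟨d, hd0, hd⟩

theorem main : PropSP := by
  intro a lam S n ha hlam hS hn
  obtain ⟨N, hN⟩ : ∃ N : ℕ, N = ∑ p ∈ S, n p := ⟨_, rfl⟩
  have hN1 : 1 ≤ N := by
    obtain ⟨p, hp⟩ := hS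
    rw [hN]
    exact (hn p hp).1.trans (Finset.single_le_sum (f := n) (fun _ _ => Nat.zero_le _) hp)
  have hNr : (1 : ℝ) ≤ N := by exact_mod_cast hN1
  obtain ⟨d, hd, hsep⟩ := exists_sep S
  obtain ⟨D, hD⟩ : ∃ D : ℝ, D = ∏ q ∈ S, max 1 ((d / 4) ^ (-(a * n q))) := ⟨_, rfl⟩
  have hD0 : 0 < D := by
    rw [hD]
    exact Finset.prod_pos fun q _ => lt_of_lt_of_le one_pos (le_max_left _ _)
  have hev : ∀ᶠ μ in 𝓝[>] (0 : ℝ), μ ≤ d / (8 * N) ∧
      ∀ p ∈ S, lam * 2 ^ a * D * (2 * N * μ) ^ (1 - a * n p) ≤ 2 / N := by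
    apply Eventually.and
    · filter_upwards [Ioc_mem_nhdsGT (show (0 : ℝ) < d / (8 * N) by positivity)] with μ hμ
      exact hμ.2
    · rw [Finset.eventually_all]
      intro p hp
      have hexp : 0 < 1 - a * n p := by have := (hn p hp).2; linarith
      have ht : Tendsto (fun μ : ℝ => lam * 2 ^ a * D * (2 * N * μ) ^ (1 - a * n p)) (𝓝[>] 0)
          (𝓝 0) := by
        have h1 : Tendsto (fun μ : ℝ => lam * 2 ^ a * D * (2 * N * μ) ^ (1 - a * n p)) (𝓝 0)
            (𝓝 (lam * 2 ^ a * D * (2 * N * 0) ^ (1 - a * n p))) := by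
          apply Tendsto.const_mul
          have h2 : Tendsto (fun μ : ℝ => 2 * (N : ℝ) * μ) (𝓝 0) (𝓝 (2 * N * 0)) :=
            tendsto_id.const_mul _
          exact h2.rpow_const (Or.inr hexp.le)
        rw [mul_zero, Real.zero_rpow hexp.ne', mul_zero] at h1
        exact h1.mono_left nhdsWithin_le_nhds
      have h2N : (0 : ℝ) < 2 / N := by positivity
      filter_upwards [ht.eventually (gt_mem_nhds h2N)] with μ hμ
      exact hμ.le
  obtain ⟨μ₀, hμ₀, hsub⟩ := mem_nhdsGT_iff_exists_Ioc_subset.1 hev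
  refine ⟨μ₀, hμ₀, fun μ hμ hle z => ?_⟩
  obtain ⟨hmu1, hmu2⟩ := hsub ⟨hμ, hle⟩
  have hrhs : 0 ≤ ∑ p ∈ S, (n p : ℝ) * (4 * μ / (μ + sp p z) ^ 2) :=
    Finset.sum_nonneg fun p _ => by positivity
  set G := gg S n z * Real.exp (VV S n μ z) with hG
  have hG0 : 0 ≤ G := by
    rw [hG, gV_eq S n μ hμ z]
    have : ∀ p, 0 ≤ sp p z := fun p => sp_nonneg p z
    apply mul_nonneg (by norm_num)
    apply Finset.prod_nonneg
    intro p _
    have := this p
    positivity
  rcases le_or_gt 1 G with h1 | h1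
  · refine le_trans ?_ hrhs
    have : Real.exp (a * (VV S n μ z - G)) * (1 - G) ≤ 0 :=
      mul_nonpos_of_nonneg_of_nonpos (Real.exp_pos _).le (by linarith)
    exact mul_nonpos_of_nonneg_of_nonpos hlam.le this
  · obtain ⟨p, hp, hps⟩ := exists_small S n N hN hN1 μ hμ z h1
    have hsp := sp_nonneg p z
    have hpos : 0 < μ + sp p z := by linarith
    -- left side
    have hL : Real.exp (a * (VV S n μ z - G)) * (1 - G) ≤ Real.exp (a * VV S n μ z) := by
      calc Real.exp (a * (VV S n μ z - G)) * (1 - G) ≤ Real.exp (a * (VV S n μ z - G)) * 1 := by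
            apply mul_le_mul_of_nonneg_left (by linarith) (Real.exp_pos _).le
        _ ≤ Real.exp (a * VV S n μ z) := by
            rw [mul_one]
            apply Real.exp_le_exp.2
            have : 0 ≤ a * G := by positivity
            linarith
    have hprod : ∏ q ∈ S.erase p, (μ + sp q z) ^ (-(a * n q)) ≤ D := by
      calc ∏ q ∈ S.erase p, (μ + sp q z) ^ (-(a * n q))
          ≤ ∏ q ∈ S.erase p, max 1 ((d / 4) ^ (-(a * n q))) := by
            apply Finset.prod_le_prod
            · intro q _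
              have := sp_nonneg q z
              positivity
            · intro q hq
              rw [Finset.mem_erase] at hq
              refine le_trans ?_ (le_max_right _ _)
              apply Real.rpow_le_rpow_of_nonpos (by positivity)
              · have h3 := sp_tri p q z
                have h4 := hsep p hp q hq.2 (Ne.symm hq.1)
                have h5 : sp p z ≤ d / 4 := by
                  have h6 : 2 * (N : ℝ) * μ ≤ 2 * N * (d / (8 * N)) := by gcongr
                  have h7 : 2 * (N : ℝ) * (d / (8 * N)) = d / 4 := by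
                    field_simp
                    norm_num
                  linarith
                linarith
              · have : 0 ≤ a * n q := by positivity
                linarith
        _ ≤ D := by
            rw [hD, ← Finset.mul_prod_erase S _ hp]
            have h8 : 0 ≤ ∏ q ∈ S.erase p, max 1 ((d / 4) ^ (-(a * n q))) :=
              Finset.prod_nonneg fun q _ => le_trans zero_le_one (le_max_left _ _)
            exact le_mul_of_one_le_left h8 (le_max_left _ _)
    have hexpV : Real.exp (a * VV S n μ z) ≤ 2 ^ a * ((μ + sp p z) ^ (-(a * n p)) * D) := by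
      rw [exp_aVV a S n μ hμ z, ← Finset.mul_prod_erase S _ hp]
      gcongr
    -- right side
    have hR : (2 : ℝ) / (N * (μ + sp p z)) ≤ ∑ q ∈ S, (n q : ℝ) * (4 * μ / (μ + sp q z) ^ 2) := by
      calc (2 : ℝ) / (N * (μ + sp p z)) ≤ 4 * μ / (μ + sp p z) ^ 2 := by
            rw [div_le_div_iff₀ (by positivity) (by positivity)]
            nlinarith [mul_le_mul_of_nonneg_left hps hpos.le]
        _ = 1 * (4 * μ / (μ + sp p z) ^ 2) := (one_mul _).symm
        _ ≤ (n p : ℝ) * (4 * μ / (μ + sp p z) ^ 2) := by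
            have : (1 : ℝ) ≤ n p := by exact_mod_cast (hn p hp).1
            gcongr
        _ ≤ _ := Finset.single_le_sum (f := fun q => (n q : ℝ) * (4 * μ / (μ + sp q z) ^ 2))
            (fun q _ => by positivity) hp
    have hexp : 0 < 1 - a * n p := by have := (hn p hp).2; linarith
    have h5 : lam * 2 ^ a * D * (μ + sp p z) ^ (1 - a * n p) ≤ 2 / N := by
      refine le_trans ?_ (hmu2 p hp)
      have : (μ + sp p z) ^ (1 - a * n p) ≤ (2 * N * μ) ^ (1 - a * n p) :=
        Real.rpow_le_rpow hpos.le hps hexp.le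
      gcongr
    calc lam * (Real.exp (a * (VV S n μ z - G)) * (1 - G))
        ≤ lam * (2 ^ a * ((μ + sp p z) ^ (-(a * n p)) * D)) :=
          mul_le_mul_of_nonneg_left (hL.trans hexpV) hlam.le
      _ = (lam * 2 ^ a * D * (μ + sp p z) ^ (1 - a * n p)) / (μ + sp p z) := by
          rw [sub_eq_add_neg, Real.rpow_add hpos, Real.rpow_one]
          field_simp
      _ ≤ (2 / N) / (μ + sp p z) := by gcongr
      _ = 2 / (N * (μ + sp p z)) := by rw [div_div]
      _ ≤ _ := hR

end Pool.Agent.W714.GS.SP
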